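import Mathlib
import Pool.Agent.H.MP_301b8f_al.Core

set_option autoImplicit false

namespace Pool.Agent.Results.MP_301b8f_al.Always

open FirstOrder FirstOrder.Language FirstOrder.Language.Structure Function

universe u v w

/-- strong amalgamation for the class of finite structures embeddable in M -/
def StrongAmalg (L : FirstOrder.Language.{u, v}) (M : Type w) [L.Structure M] : Prop :=
  ∀ (A B C : Type w) [L.Structure A] [L.Structure B] [L.Structure C]
    [Finite A] [Finite B] [Finite C] (f : A ↪[L] B) (g : A ↪[L] C),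
    Nonempty (B ↪[L] M) → Nonempty (C ↪[L] M) →
    ∃ (D : Type w) (_ : L.Structure D) (f' : B ↪[L] D) (g' : C ↪[L] D), Finite D ∧
      Nonempty (D ↪[L] M) ∧ (∀ a, f' (f a) = g' (g a)) ∧
      ∀ b c, f' b = g' c → ∃ a, f a = b ∧ g a = c

/-- every substructure with exactly k elements has trivial automorphism group -/
def RigidSubsets (L : FirstOrder.Language.{u, v}) (M : Type w) [L.Structure M] (k : ℕ) : Prop :=
  ∀ S : L.Substructure M, Nat.card S = k → ∀ (σ : S ≃[L] S) (x : S), σ x = x

/-- a structurally sharply k-transitive action by automorphisms -/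
def Sharp (L : FirstOrder.Language.{u, v}) (M : Type w) [L.Structure M] (k : ℕ) (G : Type)
    [Group G] [MulAction G M] : Prop :=
  (∀ (g : G) (n : ℕ) (r : L.Relations n) (x : Fin n → M),
    RelMap r (fun i => g • x i) ↔ RelMap r x) ∧
  ∀ a b : Fin k → M, Injective a → Injective b →
    (∀ (n : ℕ) (r : L.Relations n) (t : Fin n → Fin k), RelMap r (a ∘ t) ↔ RelMap r (b ∘ t)) →
    ∃! g : G, ∀ i, g • a i = b i

open Pool.Agent.H.MP_301b8f_al

variable (L : FirstOrder.Language.{u, v}) (M : Type w) [L.Structure M]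

def Au : Subgroup (Equiv.Perm M) where
  carrier := {σ | ∀ (n : ℕ) (r : L.Relations n) (x : Fin n → M), RelMap r (σ ∘ x) ↔ RelMap r x}
  mul_mem' := fun {σ τ} hσ hτ n r x => (hσ n r (τ ∘ x)).trans (hτ n r x)
  one_mem' := fun _ _ _ => Iff.rfl
  inv_mem' := fun {σ} hσ n r x => by
    rw [← hσ n r (⇑σ⁻¹ ∘ x)]
    simp [comp_def]

variable {L M}

lemma ext_emb [L.IsRelational] (hU : L.IsUltrahomogeneous M) (S : L.Substructure M) [Finite S]
    (f : S ↪[L] M) : ∃ σ ∈ Au L M, ∀ x : S, σ x = f x := by
  obtain ⟨g, hg⟩ := hU S (Substructure.fg_iff_finite.2 inferInstance) f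
  exact ⟨g.toEquiv, fun n r x => g.map_rel r x, fun x => by rw [hg]; rfl⟩

lemma fin_cl [L.IsRelational] {s : Set M} (hs : s.Finite) : Finite (Substructure.closure L s) := by
  have : ((Substructure.closure L s : L.Substructure M) : Set M).Finite := by
    rw [Substructure.closure_eq_of_isRelational]; exact hs
  exact this

lemma homog [L.IsRelational] (hU : L.IsUltrahomogeneous M) {B : Type*} [Finite B] (a b : B → M)
    (ha : Injective a) (hb : Injective b)
    (h : ∀ (n : ℕ) (r : L.Relations n) (t : Fin n → B), RelMap r (a ∘ t) ↔ RelMap r (b ∘ t)) :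
    ∃ σ ∈ Au L M, ∀ i, σ (a i) = b i := by
  have := fin_cl (L := L) (Set.finite_range a)
  have hm : ∀ x : Substructure.closure L (Set.range a), ∃ i, a i = x := fun x =>
    (Substructure.mem_closure_iff_of_isRelational L (Set.range a) x).1 x.2
  choose p hp using hm
  let f : Substructure.closure L (Set.range a) ↪[L] M :=
    { toFun := fun x => b (p x)
      inj' := fun x y e => Subtype.ext (by rw [← hp x, ← hp y, hb e])
      map_fun' := fun f => isEmptyElim f
      map_rel' := fun {n} r x => by
        refine (h n r (p ∘ x)).symm.trans ?_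
        have : a ∘ p ∘ x = fun i => (x i : M) := funext fun i => hp _
        rw [this]
        rfl }
  obtain ⟨σ, hσ, h'⟩ := ext_emb hU _ f
  refine ⟨σ, hσ, fun i => ?_⟩
  have := h' ⟨a i, Substructure.subset_closure ⟨i, rfl⟩⟩
  rw [this]
  exact congrArg b (ha (hp ⟨a i, _⟩))

lemma na [L.IsRelational] (hU : L.IsUltrahomogeneous M) (hS : StrongAmalg L M) :
    NA (Au L M) := by
  intro s hs x hx F hF
  have := fin_cl (L := L) hs
  have := fin_cl (L := L) (hs.insert x)
  have := fin_cl (L := L) (hs.union hF)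
  obtain ⟨D, _, f, g, -, ⟨e⟩, h1, h2⟩ := hS _ _ _
    (Substructure.inclusion (Substructure.closure_mono (L := L) (Set.subset_insert x s)))
    (Substructure.inclusion (Substructure.closure_mono (L := L) (Set.subset_union_left (t := F))))
    ⟨Substructure.subtype _⟩ ⟨Substructure.subtype _⟩
  obtain ⟨σ, hσ, h3⟩ := ext_emb hU _ (e.comp f)
  obtain ⟨τ, hτ, h4⟩ := ext_emb hU _ (e.comp g)
  refine ⟨τ⁻¹ * σ, (Au L M).mul_mem ((Au L M).inv_mem hτ) hσ, fun y hy => ?_, fun hm => ?_⟩
  · rw [Equiv.Perm.mul_apply, Equiv.Perm.inv_eq_iff_eq]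
    have hy' : y ∈ Substructure.closure L s := Substructure.subset_closure hy
    exact (h3 ⟨y, Substructure.subset_closure (Or.inr hy)⟩).trans
      ((congrArg e (h1 ⟨y, hy'⟩)).trans (h4 ⟨y, Substructure.subset_closure (Or.inl hy)⟩).symm)
  · have e1 := h3 ⟨x, Substructure.subset_closure (Or.inl rfl)⟩
    have e2 := h4 ⟨(τ⁻¹ * σ) x, Substructure.subset_closure (Or.inr hm)⟩
    simp only [Equiv.Perm.mul_apply, Equiv.Perm.coe_inv, Equiv.apply_symm_apply] at e2
    obtain ⟨a, ha, -⟩ := h2 _ _ (e.injective (e1.symm.trans e2))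
    have := (Substructure.mem_closure_iff_of_isRelational L _ _).1 a.2
    have e3 : (a : M) = x := congrArg Subtype.val ha
    exact hx (e3 ▸ this)

lemma rig [L.IsRelational] {k : ℕ} (hR : RigidSubsets L M k) : Rig (Au L M) k := by
  intro τ hτ a ha π h
  have hm : ∀ x, x ∈ Substructure.closure L (Set.range a) ↔ x ∈ Set.range a :=
    Substructure.mem_closure_iff_of_isRelational L _
  have hc : Nat.card (Substructure.closure L (Set.range a)) = k := by
    rw [Nat.card_congr (Equiv.subtypeEquivRight hm), ← Nat.card_congr (Equiv.ofInjective a ha)]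
    simp
  have hp : ∀ x, τ x ∈ Substructure.closure L (Set.range a) ↔
      x ∈ Substructure.closure L (Set.range a) := by
    intro x
    rw [hm, hm]
    constructor
    · rintro ⟨i, hi⟩
      exact ⟨π.symm i, τ.injective (by rw [h, ← hi]; simp)⟩
    · rintro ⟨i, rfl⟩
      exact ⟨_, (h i).symm⟩
  let σ : Substructure.closure L (Set.range a) ≃[L] Substructure.closure L (Set.range a) :=
    { toEquiv := τ.subtypePerm hp
      map_fun' := fun f => isEmptyElim f
      map_rel' := fun {n} r x => hτ n r fun i => (x i : M) }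
  ext i
  have := congrArg Subtype.val (hR _ hc σ ⟨a i, (hm _).2 ⟨i, rfl⟩⟩)
  have e : a (π i) = a i := (h i).symm.trans this
  rw [ha e]; rfl

theorem result (L : FirstOrder.Language.{u, v}) [L.IsRelational] (M : Type w) [L.Structure M]
    [Countable M] [Infinite M] (hU : L.IsUltrahomogeneous M) (hS : StrongAmalg L M)
    (k : ℕ) (hk : 1 ≤ k) (hR : RigidSubsets L M k) :
    ∃ (G : Type) (_ : Group G) (_ : MulAction G M), Sharp L M k G := by
  obtain ⟨ρ, h1, h2⟩ := core hk (na hU hS) (rig hR) (fun g hg n r x => by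
    obtain ⟨σ, hσ, h⟩ := hg (Set.range x) (Set.finite_range x)
    have : g ∘ x = σ ∘ x := funext fun i => h _ ⟨i, rfl⟩
    rw [this]; exact hσ n r x)
  exact ⟨FreeGroup ℕ, inferInstance, MulAction.compHom M ρ, fun g n r x => h1 g n r x,
    fun a b ha hb h => h2 a b ha (homog hU a b ha hb h)⟩

end Pool.Agent.Results.MP_301b8f_al.Always
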